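import Mathlib

/-!
# MP_426edc_al: a multilinear element of order 3 in `B_3(A_n(ℤ))`, `n ≥ 5`

`L_1 = A`, `L_{k+1} = [A, L_k]`, `B_ℓ = L_ℓ / L_{ℓ+1}` for the free associative ring
`A = A_n(ℤ) = ℤ⟨x_0, …, x_{n-1}⟩`.  For every `n ≥ 5` the class `T` in `B_3` of
`[x_0, x_2 [x_1, [x_3, x_4]]]` (which lies in `L_3`) has additive order exactly `3`, and it has
degree `1` in each of `x_0, …, x_4`; as `3 ∤ 1`, the answer to the question is negative.

* `P_mem3`: `P a e b c d = [a, e [b, [c, d]]] ∈ L_3` in every ring.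
* `three_P`: `3 P ∈ L_4` in every ring: modulo `L_4` the expression `P` is totally antisymmetric,
  and the Jacobi identity in `b, c, d` gives `3 P = 0`.
* `P_not_mem`: `P x_0 x_2 x_1 x_3 x_4 ∉ L_4` in `A_5(ℤ)`, by an explicit functional `A → ℤ/3` on
  words, supported on 40 of the 120 words in which each letter occurs once.
-/

namespace Pool.Agent.Results.MP_426edc_al.MultilinearThreeTorsion

open FreeAlgebra

/-- The free associative unital ring on `n` generators. -/
abbrev A (n : ℕ) : Type := FreeAlgebra ℤ (Fin n)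

/-- The lower central series of a ring `R` regarded as a Lie ring: `lcs R k` is `L_k` for `k ≥ 1`
(`L_1 = R`, and `L_{k+1}` is the additive subgroup generated by all `ab - ba` with `a ∈ R`,
`b ∈ L_k`); the value at `0` is a convention that is never used. -/
def lcs (R : Type) [Ring R] : ℕ → AddSubgroup R
  | 0 => ⊤
  | 1 => ⊤
  | (k + 2) => AddSubgroup.closure {c | ∃ a b : R, b ∈ lcs R (k + 1) ∧ c = a * b - b * a}

/-- `B_ℓ(A_n(ℤ)) = L_ℓ / L_{ℓ+1}`. -/
abbrev B (n l : ℕ) : Type := lcs (A n) l ⧸ (lcs (A n) (l + 1)).addSubgroupOf (lcs (A n) l)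

/-- The elements of `A_n(ℤ)` that are homogeneous of degree `m` in the generator `x_j`: the
integer combinations of the words in which `x_j` occurs exactly `m` times. -/
def homog (n : ℕ) (j : Fin n) (m : ℕ) : AddSubgroup (A n) :=
  AddSubgroup.closure {c | ∃ w : List (Fin n), w.count j = m ∧ c = (w.map (ι ℤ)).prod}

/-- `T ∈ B_ℓ(A_n(ℤ))` has degree `m` with respect to `x_j`: it is the class of an element of
`L_ℓ` that is homogeneous of degree `m` in `x_j`. -/
def HasDeg {n l : ℕ} (T : B n l) (j : Fin n) (m : ℕ) : Prop :=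
  ∃ c : lcs (A n) l, (c : A n) ∈ homog n j m ∧ T = QuotientAddGroup.mk c

/-- The statement asked about in Q1: the order of every torsion element `T ∈ B_ℓ(A_n(ℤ))` of
degree `m` with respect to `x_j` divides `m`. -/
def Question : Prop :=
  ∀ n l : ℕ, 1 ≤ n → 1 ≤ l → ∀ (j : Fin n) (m : ℕ) (T : B n l),
    T ≠ 0 → IsOfFinAddOrder T → HasDeg T j m → addOrderOf T ∣ m

section General

variable {R S : Type} [Ring R] [Ring S]


lemma mem_succ {k : ℕ} (hk : 1 ≤ k) (a : R) {b : R} (hb : b ∈ lcs R k) :
    a * b - b * a ∈ lcs R (k + 1) := by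
  obtain ⟨k, rfl⟩ : ∃ j, k = j + 1 := ⟨k - 1, by omega⟩
  exact AddSubgroup.subset_closure ⟨a, b, hb, rfl⟩

lemma mem_one (a : R) : a ∈ lcs R 1 := AddSubgroup.mem_top a

lemma mem3 (a b c : R) : a * (b * c - c * b) - (b * c - c * b) * a ∈ lcs R 3 :=
  mem_succ (by norm_num) _ (mem_succ (by norm_num) _ (mem_one _))

lemma mem4 (a b c d : R) :
    a * (b * (c * d - d * c) - (c * d - d * c) * b)
      - (b * (c * d - d * c) - (c * d - d * c) * b) * a ∈ lcs R 4 :=
  mem_succ (by norm_num) _ (mem3 _ _ _)

/-- `P a e b c d = [a, e [b, [c, d]]]`. -/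
def P (a e b c d : R) : R :=
  a * (e * (b * (c * d - d * c) - (c * d - d * c) * b))
    - (e * (b * (c * d - d * c) - (c * d - d * c) * b)) * a

/-- `Q a p q r s = [a, [p, q] [r, s]]`. -/
def Q (a p q r s : R) : R :=
  a * ((p * q - q * p) * (r * s - s * r)) - ((p * q - q * p) * (r * s - s * r)) * a

lemma P_mem3 (a e b c d : R) : P a e b c d ∈ lcs R 3 := by
  have h1 := mem3 (b * e - e * b) a (c * d - d * c)
  have h2 := mem3 (a * (b * e - e * b)) c d
  have h3 := mem3 (a * (c * d - d * c)) b e
  have h4 := mem3 a b (e * (c * d - d * c))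
  have h := sub_mem (sub_mem (sub_mem h4 h1) h2) h3
  convert h using 1
  unfold P
  noncomm_ring

/-- reduction modulo `L_4` -/
abbrev red (R : Type) [Ring R] : R →+ R ⧸ lcs R 4 := QuotientAddGroup.mk' (lcs R 4)

lemma red_eq_zero {x : R} (h : x ∈ lcs R 4) : red R x = 0 :=
  (QuotientAddGroup.eq_zero_iff x).2 h

lemma P_swap12 (a e b c d : R) : red R (P a e b c d) = - red R (P e a b c d) := by
  rw [← sub_eq_zero, sub_neg_eq_add, ← map_add]
  apply red_eq_zero
  have h := add_mem (mem4 (a * e) b c d) (mem4 e a b (c * d - d * c))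
  convert h using 1
  unfold P
  noncomm_ring

lemma P_swap23 (a e b c d : R) : red R (P a e b c d) = - red R (P a b e c d) := by
  rw [← sub_eq_zero, sub_neg_eq_add, ← map_add]
  apply red_eq_zero
  have h := add_mem (mem4 a (b * e) c d) (mem4 a e b (c * d - d * c))
  convert h using 1
  unfold P
  noncomm_ring

lemma P_swap45 (a e b c d : R) : P a e b c d = - P a e b d c := by
  unfold P
  noncomm_ring

lemma Q_swap12 (a p q r s : R) : Q a p q r s = - Q a q p r s := by
  unfold Q
  noncomm_ring

lemma Q_swap34 (a p q r s : R) : Q a p q r s = - Q a p q s r := by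
  unfold Q
  noncomm_ring

lemma Q_pair (a p q r s : R) : red R (Q a p q r s) = red R (Q a r s p q) := by
  rw [← sub_eq_zero, ← map_sub]
  apply red_eq_zero
  have h := mem4 a (p * q - q * p) r s
  convert h using 1
  unfold Q
  noncomm_ring

/-- `s = P - Q` modulo `L_4` -/
def s (a e b c d : R) : R ⧸ lcs R 4 := red R (P a e b c d) - red R (Q a e b c d)

lemma s_swap12 (a e b c d : R) : s a e b c d = - s a b e c d := by
  unfold s
  rw [P_swap23, Q_swap12, map_neg]
  abel

lemma s_swap34 (a e b c d : R) : s a e b c d = - s a e b d c := by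
  unfold s
  rw [P_swap45, Q_swap34, map_neg, map_neg]
  abel

lemma s_swap14 (a e b c d : R) : s a e b c d = - s a d b c e := by
  have h : red R (P a e b c d + P a d b c e - Q a e b c d - Q a d b c e) = 0 := by
    have h0 : red R (Q a e b c d) = red R (Q a c d e b) := Q_pair _ _ _ _ _
    have h1 : red R (P a e b c d + P a d b c e - Q a c d e b - Q a d b c e) = 0 := by
      apply red_eq_zero
      have h := add_mem (mem4 a b c (d * e)) (mem4 a e b (c * d - d * c))
      convert h using 1
      unfold P Q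
      noncomm_ring
    rw [map_sub, map_sub] at h1 ⊢
    rw [h0]
    exact h1
  rw [map_sub, map_sub, map_add] at h
  unfold s
  rw [← sub_eq_zero, ← h]
  abel

lemma s_pair (a e b c d : R) : s a e b c d = s a c d e b := by
  rw [s_swap34, s_swap14, s_swap34, s_swap12, s_swap14, s_swap12]
  abel

lemma P_pair (a e b c d : R) : red R (P a e b c d) = red R (P a c d e b) := by
  have h := s_pair a e b c d
  unfold s at h
  rw [Q_pair a e b c d] at h
  exact sub_left_injective h

/-- swap the first and fourth argument -/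
lemma P_swap14 (a e b c d : R) : red R (P a e b c d) = - red R (P c e b a d) := by
  rw [P_pair, P_swap12, P_pair]

/-- swap the first and third argument -/
lemma P_swap13 (a e b c d : R) : red R (P a e b c d) = - red R (P b e a c d) := by
  rw [P_swap12, P_swap23, P_swap12]
  abel

lemma P_swap34 (a e b c d : R) : red R (P a e b c d) = - red R (P a e c b d) := by
  rw [P_swap13, P_swap14, P_swap13]
  abel

lemma P_cyc (a e b c d : R) : red R (P a e b c d) = red R (P a e c d b) := by
  rw [P_swap34, P_swap45, map_neg, neg_neg]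

lemma three_P (a e b c d : R) : (3 : ℕ) • P a e b c d ∈ lcs R 4 := by
  have hJ : P a e b c d + P a e c d b + P a e d b c = 0 := by
    unfold P
    noncomm_ring
  have h1 := P_cyc a e b c d
  have h2 := P_cyc a e c d b
  have h := congrArg (red R) hJ
  rw [map_add, map_add, map_zero, ← h2, ← h1] at h
  have h3 : red R ((3 : ℕ) • P a e b c d) = 0 := by
    rw [map_nsmul, ← h]
    abel
  exact (QuotientAddGroup.eq_zero_iff _).1 h3

/-- ring homomorphisms respect the lower central series -/
lemma map_lcs (f : R →+* S) : ∀ (k : ℕ) {x : R}, x ∈ lcs R k → f x ∈ lcs S k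
  | 0, _, _ => AddSubgroup.mem_top _
  | 1, _, _ => AddSubgroup.mem_top _
  | (k + 2), x, hx => by
    induction hx using AddSubgroup.closure_induction with
    | mem x hx =>
      obtain ⟨a, b, hb, rfl⟩ := hx
      rw [map_sub, map_mul, map_mul]
      exact AddSubgroup.subset_closure ⟨f a, f b, map_lcs f (k + 1) hb, rfl⟩
    | zero => rw [map_zero]; exact zero_mem _
    | add x y _ _ hx hy => rw [map_add]; exact add_mem hx hy
    | neg x _ hx => rw [map_neg]; exact neg_mem hx

lemma map_P (f : R →+* S) (a e b c d : R) : f (P a e b c d) = P (f a) (f e) (f b) (f c) (f d) := by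
  unfold P
  simp only [map_sub, map_mul]

end General

/-! ### The functional -/

/-- The word `l` as an element of `A_n(ℤ)`. -/
def wd {n : ℕ} (l : List (Fin n)) : A n := (l.map (ι ℤ)).prod

lemma wd_append {n : ℕ} (l m : List (Fin n)) : wd (l ++ m) = wd l * wd m := by
  unfold wd
  rw [List.map_append, List.prod_append]

lemma basis_apply {n : ℕ} (w : FreeMonoid (Fin n)) :
    basisFreeMonoid ℤ (Fin n) w = wd w.toList := by
  unfold basisFreeMonoid wd
  simp only [equivMonoidAlgebraFreeMonoid, MonoidAlgebra.coeffLinearEquiv]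
  simp [FreeMonoid.lift_apply]
  exact one_smul _ _

lemma mem_words {n : ℕ} (x : A n) : x ∈ AddSubgroup.closure (Set.range (wd (n := n))) := by
  have h := (basisFreeMonoid ℤ (Fin n)).mem_span x
  have hr : Set.range (basisFreeMonoid ℤ (Fin n)) ⊆ Set.range (wd (n := n)) := by
    rintro _ ⟨w, rfl⟩
    exact ⟨w.toList, (basis_apply w).symm⟩
  refine Submodule.span_induction (p := fun x _ => x ∈ AddSubgroup.closure (Set.range wd))
    ?_ (zero_mem _) (fun x y _ _ hx hy => add_mem hx hy) ?_ h
  · intro x hx
    exact AddSubgroup.subset_closure (hr hx)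
  · intro r x _ hx
    have : r • x = (inferInstance : SMul ℤ (A n)).smul r x := rfl
    have h2 := zsmul_mem hx r
    rwa [← int_smul_eq_zsmul (inferInstance : Module ℤ (A n)) r x] at h2

/-- values -/
def val : List (Fin 5) → ℤ
  | [a, b, c, d, e] =>
    if b + c = a + a ∧ d + e = a + a ∧ b ≠ a then
      if d = b + b - a then (if b - a = 1 ∨ b - a = 4 then 1 else -1)
      else if e = b + b - a then (if b - a = 1 ∨ b - a = 4 then -1 else 1)
      else 0
    else 0
  | _ => 0

def comb (u v w z : List (Fin 5)) : ℤ :=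
  val (u ++ (v ++ (w ++ z))) - val (u ++ (v ++ (z ++ w))) - val (u ++ (w ++ (z ++ v)))
    + val (u ++ (z ++ (w ++ v))) - val (v ++ (w ++ (z ++ u))) + val (v ++ (z ++ (w ++ u)))
    + val (w ++ (z ++ (v ++ u))) - val (z ++ (w ++ (v ++ u)))

lemma chk1 : ∀ a b c d e : Fin 5, comb [a, e] [b] [c] [d] % 3 = 0 := by decide +kernel
lemma chk2 : ∀ a b c d e : Fin 5, comb [a] [b, e] [c] [d] % 3 = 0 := by decide +kernel
lemma chk3 : ∀ a b c d e : Fin 5, comb [a] [b] [c, e] [d] % 3 = 0 := by decide +kernel
lemma chk4 : ∀ a b c d e : Fin 5, comb [a] [b] [c] [d, e] % 3 = 0 := by decide +kernel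

lemma val_len {l : List (Fin 5)} (h : l.length ≠ 5) : val l = 0 := by
  unfold val
  split
  · simp at h
  · rfl

lemma comb_mod (u v w z : List (Fin 5)) : comb u v w z % 3 = 0 := by
  rcases u with _ | ⟨a, u⟩
  · simp only [comb, List.nil_append, List.append_nil]; ring_nf; simp
  rcases v with _ | ⟨b, v⟩
  · simp only [comb, List.nil_append]; ring_nf; simp
  rcases w with _ | ⟨c, w⟩
  · simp only [comb, List.nil_append]; ring_nf; simp
  rcases z with _ | ⟨d, z⟩
  · simp only [comb, List.nil_append, List.append_nil]; ring_nf; simp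
  by_cases hl : u.length + (v.length + (w.length + z.length)) = 1
  · rcases u with _ | ⟨e, u⟩
    · rcases v with _ | ⟨e, v⟩
      · rcases w with _ | ⟨e, w⟩
        · rcases z with _ | ⟨e, z⟩
          · simp at hl
          · have : z = [] := List.eq_nil_of_length_eq_zero (by
              simp only [List.length_cons, List.length_nil] at hl; omega)
            subst this
            exact chk4 a b c d e
        · have h1 : w = [] := List.eq_nil_of_length_eq_zero (by
              simp only [List.length_cons, List.length_nil] at hl; omega)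
          have h2 : z = [] := List.eq_nil_of_length_eq_zero (by
              simp only [List.length_cons, List.length_nil] at hl; omega)
          subst h1; subst h2
          exact chk3 a b c d e
      · have h1 : w = [] := List.eq_nil_of_length_eq_zero (by
              simp only [List.length_cons, List.length_nil] at hl; omega)
        have h2 : z = [] := List.eq_nil_of_length_eq_zero (by
              simp only [List.length_cons, List.length_nil] at hl; omega)
        have h3 : v = [] := List.eq_nil_of_length_eq_zero (by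
              simp only [List.length_cons, List.length_nil] at hl; omega)
        subst h1; subst h2; subst h3
        exact chk2 a b c d e
    · have h1 : w = [] := List.eq_nil_of_length_eq_zero (by
              simp only [List.length_cons, List.length_nil] at hl; omega)
      have h2 : z = [] := List.eq_nil_of_length_eq_zero (by
              simp only [List.length_cons, List.length_nil] at hl; omega)
      have h3 : v = [] := List.eq_nil_of_length_eq_zero (by
              simp only [List.length_cons, List.length_nil] at hl; omega)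
      have h4 : u = [] := List.eq_nil_of_length_eq_zero (by
              simp only [List.length_cons, List.length_nil] at hl; omega)
      subst h1; subst h2; subst h3; subst h4
      exact chk1 a b c d e
  · have key : ∀ l : List (Fin 5), l.length = u.length + (v.length + (w.length + z.length)) + 4 →
        val l = 0 := fun l h => val_len (by omega)
    unfold comb
    rw [key, key, key, key, key, key, key, key]
    · rfl
    all_goals simp only [List.length_append, List.length_cons]; omega

/-- The functional `A_5(ℤ) → ℤ/3` with value `val l` on the word `l`. -/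
noncomputable def F : A 5 →ₗ[ℤ] ZMod 3 :=
  (basisFreeMonoid ℤ (Fin 5)).constr ℤ fun w => ((val w.toList : ℤ) : ZMod 3)

lemma F_wd (l : List (Fin 5)) : F (wd l) = ((val l : ℤ) : ZMod 3) := by
  have h := (basisFreeMonoid ℤ (Fin 5)).constr_basis ℤ
    (fun w => ((val w.toList : ℤ) : ZMod 3)) (FreeMonoid.ofList l)
  rw [basis_apply] at h
  exact h

/-- the iterated commutator `[a, [b, [c, d]]]` -/
def br4 (a b c d : A 5) : A 5 :=
  a * (b * (c * d - d * c) - (c * d - d * c) * b)
      - (b * (c * d - d * c) - (c * d - d * c) * b) * a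

lemma br4_wd (u v w z : List (Fin 5)) : F (br4 (wd u) (wd v) (wd w) (wd z)) = 0 := by
  have h : br4 (wd u) (wd v) (wd w) (wd z) =
      wd (u ++ (v ++ (w ++ z))) - wd (u ++ (v ++ (z ++ w))) - wd (u ++ (w ++ (z ++ v)))
      + wd (u ++ (z ++ (w ++ v))) - wd (v ++ (w ++ (z ++ u))) + wd (v ++ (z ++ (w ++ u)))
      + wd (w ++ (z ++ (v ++ u))) - wd (z ++ (w ++ (v ++ u))) := by
    simp only [wd_append, br4]
    noncomm_ring
  rw [h]
  simp only [map_sub, map_add, F_wd]
  have h2 := comb_mod u v w z
  have h3 : ((comb u v w z : ℤ) : ZMod 3) = 0 :=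
    (ZMod.intCast_zmod_eq_zero_iff_dvd _ 3).2 (Int.dvd_of_emod_eq_zero h2)
  rw [← h3]
  unfold comb
  push_cast
  ring

lemma F_br4 (a b c d : A 5) : F (br4 a b c d) = 0 := by
  have hd : ∀ u v w : List (Fin 5), F (br4 (wd u) (wd v) (wd w) d) = 0 := by
    intro u v w
    induction mem_words d using AddSubgroup.closure_induction with
    | mem x hx => obtain ⟨z, rfl⟩ := hx; exact br4_wd u v w z
    | zero => simp [br4]
    | add x y _ _ hx hy =>
      have : br4 (wd u) (wd v) (wd w) (x + y)
          = br4 (wd u) (wd v) (wd w) x + br4 (wd u) (wd v) (wd w) y := by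
        unfold br4; noncomm_ring
      rw [this, map_add, hx, hy, add_zero]
    | neg x _ hx =>
      have : br4 (wd u) (wd v) (wd w) (-x) = - br4 (wd u) (wd v) (wd w) x := by
        unfold br4; noncomm_ring
      rw [this, map_neg, hx, neg_zero]
  have hc : ∀ u v : List (Fin 5), F (br4 (wd u) (wd v) c d) = 0 := by
    intro u v
    induction mem_words c using AddSubgroup.closure_induction with
    | mem x hx => obtain ⟨z, rfl⟩ := hx; exact hd u v z
    | zero => simp [br4]
    | add x y _ _ hx hy =>
      have : br4 (wd u) (wd v) (x + y) d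
          = br4 (wd u) (wd v) x d + br4 (wd u) (wd v) y d := by
        unfold br4; noncomm_ring
      rw [this, map_add, hx, hy, add_zero]
    | neg x _ hx =>
      have : br4 (wd u) (wd v) (-x) d = - br4 (wd u) (wd v) x d := by
        unfold br4; noncomm_ring
      rw [this, map_neg, hx, neg_zero]
  have hb : ∀ u : List (Fin 5), F (br4 (wd u) b c d) = 0 := by
    intro u
    induction mem_words b using AddSubgroup.closure_induction with
    | mem x hx => obtain ⟨z, rfl⟩ := hx; exact hc u z
    | zero => simp [br4]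
    | add x y _ _ hx hy =>
      have : br4 (wd u) (x + y) c d
          = br4 (wd u) x c d + br4 (wd u) y c d := by
        unfold br4; noncomm_ring
      rw [this, map_add, hx, hy, add_zero]
    | neg x _ hx =>
      have : br4 (wd u) (-x) c d = - br4 (wd u) x c d := by
        unfold br4; noncomm_ring
      rw [this, map_neg, hx, neg_zero]
  induction mem_words a using AddSubgroup.closure_induction with
  | mem x hx => obtain ⟨z, rfl⟩ := hx; exact hb z
  | zero => simp [br4]
  | add x y _ _ hx hy =>
    have : br4 (x + y) b c d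
        = br4 x b c d + br4 y b c d := by
      unfold br4; noncomm_ring
    rw [this, map_add, hx, hy, add_zero]
  | neg x _ hx =>
    have : br4 (-x) b c d = - br4 x b c d := by
      unfold br4; noncomm_ring
    rw [this, map_neg, hx, neg_zero]

lemma F_lcs2 (a b : A 5) {x : A 5} (hx : x ∈ lcs (A 5) 2) :
    F (a * (b * x - x * b) - (b * x - x * b) * a) = 0 := by
  induction hx using AddSubgroup.closure_induction with
  | mem x hx =>
    obtain ⟨c, d, -, rfl⟩ := hx
    exact F_br4 a b c d
  | zero => simp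
  | add x y _ _ hx hy =>
    have : a * (b * (x + y) - (x + y) * b) - (b * (x + y) - (x + y) * b) * a
        = (a * (b * x - x * b) - (b * x - x * b) * a)
          + (a * (b * y - y * b) - (b * y - y * b) * a) := by noncomm_ring
    rw [this, map_add, hx, hy, add_zero]
  | neg x _ hx =>
    have : a * (b * (-x) - (-x) * b) - (b * (-x) - (-x) * b) * a
        = - (a * (b * x - x * b) - (b * x - x * b) * a) := by noncomm_ring
    rw [this, map_neg, hx, neg_zero]

lemma F_lcs3 (a : A 5) {x : A 5} (hx : x ∈ lcs (A 5) 3) : F (a * x - x * a) = 0 := by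
  induction hx using AddSubgroup.closure_induction with
  | mem x hx =>
    obtain ⟨b, y, hy, rfl⟩ := hx
    exact F_lcs2 a b hy
  | zero => simp
  | add x y _ _ hx hy =>
    have : a * (x + y) - (x + y) * a = (a * x - x * a) + (a * y - y * a) := by noncomm_ring
    rw [this, map_add, hx, hy, add_zero]
  | neg x _ hx =>
    have : a * (-x) - (-x) * a = - (a * x - x * a) := by noncomm_ring
    rw [this, map_neg, hx, neg_zero]

lemma F_lcs4 {x : A 5} (hx : x ∈ lcs (A 5) 4) : F x = 0 := by
  induction hx using AddSubgroup.closure_induction with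
  | mem x hx =>
    obtain ⟨b, y, hy, rfl⟩ := hx
    exact F_lcs3 b hy
  | zero => simp
  | add x y _ _ hx hy => rw [map_add, hx, hy, add_zero]
  | neg x _ hx => rw [map_neg, hx, neg_zero]

/-- `P x_0 x_2 x_1 x_3 x_4` written out in words -/
lemma P_words {n : ℕ} (a e b c d : Fin n) :
    P (ι ℤ a : A n) (ι ℤ e) (ι ℤ b) (ι ℤ c) (ι ℤ d) =
      wd [a, e, b, c, d] - wd [a, e, b, d, c] - wd [a, e, c, d, b] + wd [a, e, d, c, b]
      - wd [e, b, c, d, a] + wd [e, b, d, c, a] + wd [e, c, d, b, a] - wd [e, d, c, b, a] := by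
  simp only [wd, P, List.map_cons, List.map_nil, List.prod_cons, List.prod_nil]
  noncomm_ring

lemma P_not_mem : P (ι ℤ 0 : A 5) (ι ℤ 2) (ι ℤ 1) (ι ℤ 3) (ι ℤ 4) ∉ lcs (A 5) 4 := by
  intro h
  have h1 := F_lcs4 h
  rw [P_words] at h1
  simp only [map_sub, map_add, F_wd] at h1
  revert h1
  decide

/-! ### All `n ≥ 5` -/

lemma P_not_mem_general {n : ℕ} (hn : 5 ≤ n) :
    P (ι ℤ (⟨0, by omega⟩ : Fin n) : A n) (ι ℤ ⟨2, by omega⟩) (ι ℤ ⟨1, by omega⟩)
      (ι ℤ ⟨3, by omega⟩) (ι ℤ ⟨4, by omega⟩) ∉ lcs (A n) 4 := by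
  intro h
  let f : A n →ₐ[ℤ] A 5 := lift ℤ fun i => if h : i.1 < 5 then ι ℤ ⟨i.1, h⟩ else 0
  have h1 := map_lcs (f : A n →+* A 5) 4 h
  rw [map_P] at h1
  refine P_not_mem ?_
  convert h1 using 2 <;> simp [f, lift_ι_apply]

/-- The element `[x_0, x_2 [x_1, [x_3, x_4]]]` of `L_3(A_n(ℤ))`. -/
noncomputable def elt {n : ℕ} (hn : 5 ≤ n) : lcs (A n) 3 :=
  ⟨P (ι ℤ (⟨0, by omega⟩ : Fin n)) (ι ℤ ⟨2, by omega⟩) (ι ℤ ⟨1, by omega⟩)
      (ι ℤ ⟨3, by omega⟩) (ι ℤ ⟨4, by omega⟩), P_mem3 _ _ _ _ _⟩

/-- Its class in `B_3(A_n(ℤ))`. -/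
noncomputable def T {n : ℕ} (hn : 5 ≤ n) : B n 3 := QuotientAddGroup.mk (elt hn)

lemma T_ne {n : ℕ} (hn : 5 ≤ n) : T hn ≠ 0 := by
  intro h
  rw [T, QuotientAddGroup.eq_zero_iff, AddSubgroup.mem_addSubgroupOf] at h
  exact P_not_mem_general hn h

lemma three_T {n : ℕ} (hn : 5 ≤ n) : 3 • T hn = 0 := by
  rw [T, ← QuotientAddGroup.mk_nsmul, QuotientAddGroup.eq_zero_iff, AddSubgroup.mem_addSubgroupOf]
  exact three_P _ _ _ _ _

lemma order_T {n : ℕ} (hn : 5 ≤ n) : addOrderOf (T hn) = 3 :=
  addOrderOf_eq_prime (three_T hn) (T_ne hn)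

lemma deg_T {n : ℕ} (hn : 5 ≤ n) (j : Fin n) :
    HasDeg (T hn) j (if j.1 < 5 then 1 else 0) := by
  refine ⟨elt hn, ?_, rfl⟩
  have key : ∀ l : List (Fin n), l.count j = (if j.1 < 5 then 1 else 0) →
      wd l ∈ homog n j (if j.1 < 5 then 1 else 0) :=
    fun l hl => AddSubgroup.subset_closure ⟨l, hl, rfl⟩
  unfold elt
  simp only
  rw [P_words]
  refine sub_mem (add_mem (add_mem (sub_mem (add_mem (sub_mem (sub_mem ?_ ?_) ?_) ?_) ?_) ?_) ?_)
    ?_ <;>
  · apply key
    simp only [List.count_cons, List.count_nil, beq_iff_eq, Fin.ext_iff]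
    split_ifs <;> omega

/-- For every `n ≥ 5`, the class `T` of `[x_0, x_2 [x_1, [x_3, x_4]]]` in `B_3(A_n(ℤ))` has
additive order `3`; it has degree `1` with respect to `x_0, …, x_4` and degree `0` with respect to
the other generators.  Hence the answer to Q1 is negative. -/
theorem result :
    (∀ (n : ℕ) (hn : 5 ≤ n),
      (P (ι ℤ (⟨0, by omega⟩ : Fin n) : A n) (ι ℤ ⟨2, by omega⟩) (ι ℤ ⟨1, by omega⟩)
        (ι ℤ ⟨3, by omega⟩) (ι ℤ ⟨4, by omega⟩) ∈ lcs (A n) 3) ∧
      addOrderOf (T hn) = 3 ∧
      ∀ j : Fin n, HasDeg (T hn) j (if j.1 < 5 then 1 else 0)) ∧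
    ¬ Question := by
  refine ⟨fun n hn => ⟨P_mem3 _ _ _ _ _, order_T hn, deg_T hn⟩, fun hQ => ?_⟩
  have h := hQ 5 3 (by norm_num) (by norm_num) 0 1 (T le_rfl) (T_ne le_rfl)
    (addOrderOf_pos_iff.1 (by rw [order_T]; norm_num)) (by simpa using deg_T (n := 5) le_rfl 0)
  rw [order_T] at h
  norm_num at h

end Pool.Agent.Results.MP_426edc_al.MultilinearThreeTorsion
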